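import Pool.Agent.J4H81.NPP.Base

/-!
# Project NPP: the double planting
-/

set_option autoImplicit false

namespace Pool.Agent.J4H81.NPP

open Pool.Agent.NPC Pool.Agent.H628R3.RO Pool.Agent.J4H45.OPT Pool.Agent.J4H25.NPP
open Pool.Agent.J4H45.EXP (T wds mem_wds card_wds)

/-- few pairs are bad -/
theorem card_bad {α : Type} [DecidableEq α] (G0 G1 : Finset α) (S : α → Finset α) (N : ℕ)
    (h0 : G0.card ≤ N) (hS : ∀ w ∈ G0, 32 * (S w).card ≤ N) :
    32 * ((G0 ×ˢ G1).filter (fun t => t.2 ∈ S t.1)).card ≤ N * N := by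
  have h1 : (G0 ×ˢ G1).filter (fun t => t.2 ∈ S t.1) ⊆
      G0.biUnion (fun w => ({w} : Finset α) ×ˢ S w) := by
    intro t ht
    rw [Finset.mem_filter, Finset.mem_product] at ht
    rw [Finset.mem_biUnion]
    exact ⟨t.1, ht.1.1, Finset.mem_product.2 ⟨Finset.mem_singleton_self _, ht.2⟩⟩
  have h2 := (Finset.card_le_card h1).trans Finset.card_biUnion_le
  have h3 : ∑ w ∈ G0, (({w} : Finset α) ×ˢ S w).card = ∑ w ∈ G0, (S w).card := by
    refine Finset.sum_congr rfl fun w _ => ?_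
    rw [Finset.card_product, Finset.card_singleton, one_mul]
  rw [h3] at h2
  calc 32 * ((G0 ×ˢ G1).filter (fun t => t.2 ∈ S t.1)).card ≤ 32 * ∑ w ∈ G0, (S w).card := by
        omega
    _ = ∑ w ∈ G0, 32 * (S w).card := by rw [Finset.mul_sum]
    _ ≤ ∑ w ∈ G0, N := Finset.sum_le_sum hS
    _ = G0.card * N := by rw [Finset.sum_const, smul_eq_mul]
    _ ≤ N * N := Nat.mul_le_mul_right _ h0

theorem card_bad' {α : Type} [DecidableEq α] (G0 G1 : Finset α) (S : α → Finset α) (N : ℕ)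
    (h1 : G1.card ≤ N) (hS : ∀ w ∈ G1, 32 * (S w).card ≤ N) :
    32 * ((G0 ×ˢ G1).filter (fun t => t.1 ∈ S t.2)).card ≤ N * N := by
  have h := card_bad G1 G0 S N h1 hS
  refine le_trans ?_ h
  refine Nat.mul_le_mul_left _ ?_
  refine Finset.card_le_card_of_injOn (fun t => (t.2, t.1)) ?_ ?_
  · intro t ht
    rw [Finset.mem_coe, Finset.mem_filter, Finset.mem_product] at ht ⊢
    exact ⟨⟨ht.1.2, ht.1.1⟩, ht.2⟩
  · intro t _ t' _ h
    simp only [Prod.mk.injEq] at h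
    exact Prod.ext h.2 h.1

theorem t_C1 : S_C1 := by
  classical
  intro O E M p K i0 ok i hi l A hA
  obtain ⟨q, hq, h0, h1⟩ := hA
  have key : ∀ c < 2, ∀ w ∈ good O M p A c (T i) (T i + ax l) q, ∃ S : Finset (List Bool),
      32 * S.card ≤ 2 ^ T i ∧ ∀ w' : List Bool, w'.length = T i → w' ∉ S → ∀ A' : Oracle,
        Off w' (plant (spots (T i + ax l) (c, w)) A) A' → Mem (M c) (p c) (O A') q := by
    intro c hc w hw
    obtain ⟨-, u, hu, ho⟩ := mem_good.1 hw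
    obtain ⟨S, hS, hf⟩ := touched E.toEmb (M c) (plant (spots (T i + ax l) (c, w)) A)
      (pairBits q u) (T i)
    refine ⟨S, ?_, fun w' hw' hS' A' hA' => ⟨u, hu, ?_⟩⟩
    · have h3 := ok.touch i hi q hq c hc u hu
      omega
    · rw [hf w' hw' hS' A' hA', ho]
  choose! S hS hf using key
  set G0 := good O M p A 0 (T i) (T i + ax l) q with hG0
  set G1 := good O M p A 1 (T i) (T i + ax l) q with hG1
  have c0 : G0.card ≤ 2 ^ T i := card_good_le
  have c1 : G1.card ≤ 2 ^ T i := card_good_le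
  have b0 := card_bad G0 G1 (S 0) (2 ^ T i) c0 (fun w hw => hS 0 (by norm_num) w hw)
  have b1 := card_bad' G0 G1 (S 1) (2 ^ T i) c1 (fun w hw => hS 1 (by norm_num) w hw)
  set B0 := (G0 ×ˢ G1).filter (fun t => t.2 ∈ S 0 t.1) with hB0
  set B1 := (G0 ×ˢ G1).filter (fun t => t.1 ∈ S 1 t.2) with hB1
  refine ⟨((G0 ×ˢ G1) \ B0) \ B1, ?_, ?_, ?_⟩
  · refine (Finset.sdiff_subset.trans Finset.sdiff_subset).trans ?_
    exact Finset.product_subset_product good_subset good_subset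
  · have h3 := Finset.le_card_sdiff B1 ((G0 ×ˢ G1) \ B0)
    have h4 := Finset.le_card_sdiff B0 (G0 ×ˢ G1)
    have h5 : 4 ^ T i ≤ 4 * (G0 ×ˢ G1).card := by
      rw [Finset.card_product]
      calc 4 ^ T i = 2 ^ T i * 2 ^ T i := by rw [← mul_pow]; norm_num
        _ ≤ (2 * G0.card) * (2 * G1.card) := Nat.mul_le_mul h0 h1
        _ = 4 * (G0.card * G1.card) := by ring
    have h6 : 2 ^ T i * 2 ^ T i = 4 ^ T i := by rw [← mul_pow]; norm_num
    rw [h6] at b0 b1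
    omega
  · rintro ⟨w, w'⟩ ht
    rw [Finset.mem_sdiff, Finset.mem_sdiff, hB0, hB1, Finset.mem_filter, Finset.mem_filter,
      Finset.mem_product] at ht
    obtain ⟨⟨⟨hw, hw'⟩, hb0⟩, hb1⟩ := ht
    have n0 : w' ∉ S 0 w := fun h => hb0 ⟨⟨hw, hw'⟩, h⟩
    have n1 : w ∉ S 1 w' := fun h => hb1 ⟨⟨hw, hw'⟩, h⟩
    refine ⟨q, hq, ?_, ?_⟩
    · refine hf 0 (by norm_num) w hw w' (mem_good.1 hw').1 n0 _ ?_
      rw [plant_union]
      exact off_plant 1 _ w' _
    · refine hf 1 (by norm_num) w' hw' w (mem_good.1 hw).1 n1 _ ?_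
      rw [Finset.union_comm, plant_union]
      exact off_plant 0 _ w _

end Pool.Agent.J4H81.NPP
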