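import Pool.Agent.J4H81.NPP.Base

/-!
# Project NPP: the reduction fails after planting
-/

set_option autoImplicit false

namespace Pool.Agent.J4H81.NPP

open Pool.Agent.NPC Pool.Agent.H628R3.RO Pool.Agent.J4H45.OPT Pool.Agent.J4H25.NPP
open Pool.Agent.J4H45.EXP (T wds mem_wds card_wds)

theorem t_C2 : S_C2 := by
  classical
  intro O E M p K i0 ok MF
  obtain ⟨b, hb⟩ := MF.out_length
  obtain ⟨N1, h1⟩ := size_le b K
  obtain ⟨N2, h2⟩ := Filter.eventually_atTop.1
    (_root_.H529R3.Lev.poly_le_two_pow (Polynomial.C 4 * MF.p))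
  refine ⟨i0 + N1 + N2, by omega, fun i hi l A hA => ?_⟩
  have hTi := Pool.Agent.J4H45.EXP.le_T i
  set q := qF O MF A i with hq
  have hlen : q.length ≤ b.eval (T i) := by
    rw [hq]
    unfold qF
    rcases ho : MF.out (O A) (List.replicate (T i) false) with _ | z
    · simp
    · have h3 := hb (O A) _ z ho
      rw [List.length_replicate] at h3
      simpa using h3
  have hsize : K * q.length.size ≤ T i := h1 (T i) (by omega) _ hlen
  have hnot : ∃ c < 2, 2 * (good O M p A c (T i) (T i + ax l) q).card < 2 ^ T i := by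
    by_contra hcon
    push Not at hcon
    exact hA ⟨q, hsize, hcon 0 (by norm_num), hcon 1 (by norm_num)⟩
  obtain ⟨c, hc, hcard⟩ := hnot
  obtain ⟨S, hS, hf⟩ := touched E.toEmb MF A (List.replicate (T i) false) (T i)
  have hS4 : 4 * S.card ≤ 2 ^ T i := by
    have h3 := h2 (T i) (by omega)
    rw [Polynomial.eval_mul, Polynomial.eval_C] at h3
    rw [List.length_replicate] at hS
    omega
  refine ⟨c, hc, (wds (T i) \ good O M p A c (T i) (T i + ax l) q) \ S, ?_, ?_, ?_⟩
  · exact Finset.sdiff_subset.trans Finset.sdiff_subset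
  · have h3 := Finset.le_card_sdiff S (wds (T i) \ good O M p A c (T i) (T i + ax l) q)
    have h4 := Finset.le_card_sdiff (good O M p A c (T i) (T i + ax l) q) (wds (T i))
    rw [card_wds] at h4
    omega
  · intro w hw
    rw [Finset.mem_sdiff, Finset.mem_sdiff, mem_wds] at hw
    obtain ⟨⟨hw, hg⟩, hwS⟩ := hw
    refine ⟨c, hc, ⟨w, hw, hit_plant c _ w A⟩, ?_⟩
    have e : qF O MF (plant (spots (T i + ax l) (c, w)) A) i = q := by
      rw [hq]
      unfold qF
      rw [hf w hw hwS _ (off_plant c _ w A)]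
    rw [e]
    intro hm
    exact hg (mem_good.2 ⟨hw, hm⟩)

end Pool.Agent.J4H81.NPP
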