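import Pool.Agent.J4H25.NPP.Stm

/-!
# Project NPP: computations which do not touch a word
-/

set_option autoImplicit false

namespace Pool.Agent.J4H81.NPP

open Pool.Agent.NPC Pool.Agent.H628R3.RO Pool.Agent.J4H45.OPT Pool.Agent.J4H25.NPP
open Pool.Agent.J4H45.EXP (T wds mem_wds card_wds)

/-- The computation depends only on the answers to the questions asked (also when the algorithm
does not stop). -/
theorem run_congr' (M : Alg) (A A' : Oracle) (x : List Bool) : ∀ (n : ℕ) (a : List Bool),
    (∀ k, a.length ≤ k → k < (tr M A x n a).length →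
      A' (qu M x ((tr M A x n a).take k)) = A (qu M x ((tr M A x n a).take k))) →
    M.run A' x n a = M.run A x n a := by
  intro n
  induction n with
  | zero => intro a _; simp [Alg.run]
  | succ n ih =>
    intro a hq
    rw [A2.run_succ, A2.run_succ]
    by_cases h1 : (M.D (pairBits x a)).head? = some false
    · rw [if_pos h1, if_pos h1]
      have e : tr M A x (n + 1) a = tr M A x n (a ++ [A (M.D (pairBits x a)).tail]) := by
        rw [tr, if_pos h1]
      rw [e] at hq
      have hp := tr_prefix M A x n (a ++ [A (M.D (pairBits x a)).tail])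
      set t := tr M A x n (a ++ [A (M.D (pairBits x a)).tail]) with ht
      have hlen : a.length < t.length := by
        have := hp.length_le
        simp at this
        omega
      have htake : t.take a.length = a := by
        have h2 : a <+: t := (List.prefix_append _ _).trans hp
        exact (List.prefix_iff_eq_take.1 h2).symm
      have h3 := hq a.length le_rfl hlen
      rw [htake] at h3
      have h4 : A' (M.D (pairBits x a)).tail = A (M.D (pairBits x a)).tail := h3
      rw [h4]
      refine ih _ fun k hk hk' => hq k ?_ hk'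
      simp at hk
      omega
    · rw [if_neg h1, if_neg h1]

theorem out_congr_qs' (M : Alg) (A A' : Oracle) (x : List Bool)
    (hq : ∀ q ∈ qs M x (trs M A x), A' q = A q) : M.out A' x = M.out A x := by
  refine run_congr' M A A' x _ [] fun k _ hk => hq _ ?_
  exact List.mem_map.2 ⟨k, List.mem_range.2 hk, rfl⟩

/-- `A` and `A'` agree outside of the strings belonging to the candidates `(c, w)`. -/
def Off (w : List Bool) (A A' : Oracle) : Prop :=
  ∀ x : List Bool, (∀ c b, x ≠ pos c b w) → A' x = A x

/-- few words are touched -/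
theorem touched {O : Oracle → Oracle} (E : Emb O) (M : Alg) (A : Oracle)
    (y : List Bool) (n : ℕ) :
    ∃ S : Finset (List Bool), S.card ≤ M.p.eval y.length ∧
      ∀ w : List Bool, w.length = n → w ∉ S → ∀ A' : Oracle, Off w A A' →
        M.out (O A') y = M.out (O A) y := by
  classical
  refine ⟨((qs M y (trs M (O A) y)).map (fun q => lastn n (E.s q))).toFinset, ?_, ?_⟩
  · refine (List.toFinset_card_le _).trans ?_
    rw [List.length_map, qs_length]
    exact trs_length _ _ _
  · intro w hw hS A' hA
    subst hw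
    refine out_congr_qs' M (O A) (O A') y fun q hq => ?_
    refine (E.loc q A' A ?_)
    refine hA _ fun c b hb => hS ?_
    rw [List.mem_toFinset]
    refine List.mem_map.2 ⟨q, hq, ?_⟩
    rw [hb, lastn_pos]

theorem plant_union (J J' : Finset (List Bool)) (A : Oracle) :
    plant (J ∪ J') A = plant J' (plant J A) := by
  funext x
  unfold plant
  by_cases h : x ∈ J <;> by_cases h' : x ∈ J' <;> simp [h, h']

theorem off_plant (c m : ℕ) (w : List Bool) (A : Oracle) :
    Off w A (plant (spots m (c, w)) A) := by
  intro x hx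
  unfold plant
  rw [if_neg]
  intro h
  obtain ⟨b, _, hb⟩ := M2.mem_spots.1 h
  exact hx c b hb.symm

theorem hit_plant (c m : ℕ) (w : List Bool) (A : Oracle) :
    Hit m (c, w) (plant (spots m (c, w)) A) := by
  intro b hb
  unfold plant
  rw [if_pos (M2.mem_spots.2 ⟨b, hb, rfl⟩)]

theorem mem_good {O : Oracle → Oracle} {M : ℕ → Alg} {p : ℕ → Polynomial ℕ} {A : Oracle}
    {c n m : ℕ} {q w : List Bool} : w ∈ good O M p A c n m q ↔
      w.length = n ∧ Mem (M c) (p c) (O (plant (spots m (c, w)) A)) q := by
  classical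
  unfold good
  rw [Finset.mem_filter, mem_wds]

theorem good_subset {O : Oracle → Oracle} {M : ℕ → Alg} {p : ℕ → Polynomial ℕ} {A : Oracle}
    {c n m : ℕ} {q : List Bool} : good O M p A c n m q ⊆ wds n := by
  intro w hw
  exact mem_wds.2 (mem_good.1 hw).1

theorem card_good_le {O : Oracle → Oracle} {M : ℕ → Alg} {p : ℕ → Polynomial ℕ} {A : Oracle}
    {c n m : ℕ} {q : List Bool} : (good O M p A c n m q).card ≤ 2 ^ n := by
  rw [← card_wds]
  exact Finset.card_le_card good_subset

/-- outputs of length polynomial in `n` are short -/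
theorem size_le (b : Polynomial ℕ) (K : ℕ) : ∃ N, ∀ n ≥ N, ∀ s ≤ b.eval n, K * s.size ≤ n := by
  obtain ⟨N, hN⟩ := Filter.eventually_atTop.1
    (_root_.H529R3.Lev.poly_le_two_pow ((Polynomial.C 2 * b) ^ K))
  refine ⟨N, fun n hn s hs => ?_⟩
  have h1 := hN n hn
  rw [Polynomial.eval_pow, Polynomial.eval_mul, Polynomial.eval_C] at h1
  by_contra hcon
  have h2 : n + 1 ≤ K * s.size := by omega
  have h3 : 0 < s.size := by
    rcases Nat.eq_zero_or_pos s.size with h | h
    · rw [h] at h2; omega
    · exact h
  have h4 : 2 ^ (s.size - 1) ≤ s := Nat.lt_size.1 (by omega)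
  have h5 : 2 ^ s.size ≤ 2 * b.eval n := by
    calc 2 ^ s.size = 2 * 2 ^ (s.size - 1) := by
          rw [← pow_succ']
          congr 1
          omega
      _ ≤ 2 * b.eval n := by omega
  have h6 : 2 ^ (n + 1) ≤ 2 ^ n := by
    calc 2 ^ (n + 1) ≤ 2 ^ (K * s.size) := Nat.pow_le_pow_right (by norm_num) h2
      _ = (2 ^ s.size) ^ K := by rw [mul_comm, pow_mul]
      _ ≤ (2 * b.eval n) ^ K := Nat.pow_le_pow_left h5 K
      _ ≤ 2 ^ n := h1
  have h7 : 2 ^ n < 2 ^ (n + 1) := Nat.pow_lt_pow_right (by norm_num) (by omega)
  omega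

end Pool.Agent.J4H81.NPP
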